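import Mathlib

set_option autoImplicit false

namespace Pool.Agent.Results.MP_6677ae_co.LazyRound

open Finset

variable {V : Type} [Fintype V] [DecidableEq V]

/-- One application of the spread rule with proportion `p` to the burning set `F`. -/
noncomputable def spread (E : Finset (Finset V)) (p : ℝ) (F : Finset V) : Finset V :=
  F ∪ (E.filter fun e => ⌈p * e.card⌉₊ ≤ (e ∩ F).card).biUnion id

/-- The burning set `F_r` when the player chooses `u 0, u 1, …` in rounds `1, 2, …`. -/
noncomputable def fire (E : Finset (Finset V)) (p : ℝ) (u : ℕ → V) : ℕ → Finset V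
  | 0 => ∅
  | r + 1 => insert (u r) (spread E p (fire E p u r))

/-- `b_p(H)`: the minimum length of a burning sequence. -/
noncomputable def burnNum (E : Finset (Finset V)) (p : ℝ) : ℕ :=
  sInf {k | ∃ u : ℕ → V, (∀ r < k, u r ∉ fire E p u r) ∧ fire E p u k = univ}

/-- `b_{L,p}(H)`: the minimum size of a lazy burning set. -/
noncomputable def lazyNum (E : Finset (Finset V)) (p : ℝ) : ℕ :=
  sInf {k | ∃ S : Finset V, S.card = k ∧ ∃ t, (spread E p)^[t] S = univ}

def H : Finset (Finset (Fin 5)) := {{0, 1}, {1, 2}, {2, 3}, {3, 4}, {0, 2, 4}}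

def sp (c : ℕ) (F : Finset (Fin 5)) : Finset (Fin 5) :=
  F ∪ (H.filter fun e => (if e.card = 2 then 1 else c) ≤ (e ∩ F).card).biUnion id

theorem sp_eq (p : ℝ) (c : ℕ) (h2 : ⌈p * 2⌉₊ = 1) (h3 : ⌈p * 3⌉₊ = c) : spread H p = sp c := by
  funext F
  unfold spread sp
  congr 2
  refine filter_congr fun e he => ?_
  have : e.card = 2 ∨ e.card = 3 := by revert e; decide
  rcases this with h | h <;> simp [h, h2, h3]

theorem s1 : spread H (1 / 3) = sp 1 :=
  sp_eq _ _ (by rw [Nat.ceil_eq_iff (by omega)]; norm_num) (by norm_num)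

theorem s2 : spread H (1 / 2) = sp 2 :=
  sp_eq _ _ (by norm_num) (by rw [Nat.ceil_eq_iff (by omega)]; norm_num)

theorem sInf_eq (S : Set ℕ) (k : ℕ) (h : k ∈ S) (h' : ∀ j < k, j ∉ S) : sInf S = k :=
  le_antisymm (Nat.sInf_le h) (not_lt.1 fun hl => h' _ hl (Nat.sInf_mem ⟨k, h⟩))

theorem lazy (p : ℝ) (c : ℕ) (h : spread H p = sp c) (hc : c = 1 ∨ c = 2) : lazyNum H p = 1 := by
  refine sInf_eq _ _ ⟨{2}, rfl, 2, ?_⟩ fun j hj ⟨S, h1, t, h2⟩ => ?_
  · rw [h]
    rcases hc with rfl | rfl <;> decide
  · obtain rfl : S = ∅ := card_eq_zero.1 (by omega)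
    rw [h, Function.iterate_fixed (by rcases hc with rfl | rfl <;> decide)] at h2
    exact absurd h2 (by decide)

/-- For the hypergraph `H` (a path of four 2-edges and the 3-edge `{0,2,4}`) the lazy burning
numbers at `1/3` and `1/2` agree while the burning numbers differ. -/
theorem result : ∃ E : Finset (Finset (Fin 5)), (∀ e ∈ E, ∀ f ∈ E, e ⊆ f → e = f) ∧
    lazyNum E (1 / 3) = 1 ∧ lazyNum E (1 / 2) = 1 ∧ burnNum E (1 / 3) = 2 ∧
    burnNum E (1 / 2) = 3 := by
  refine ⟨H, by decide, lazy _ _ s1 (by omega), lazy _ _ s2 (by omega), ?_, ?_⟩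
  · refine sInf_eq _ _ ⟨fun r => if r = 0 then 2 else 0, fun r hr => ?_, ?_⟩
      fun j hj ⟨u, _, h⟩ => ?_
    · interval_cases r <;> simp only [fire, s1] <;> decide
    · simp only [fire, s1]
      decide
    · interval_cases j <;> simp only [fire, s1] at h
      · exact absurd h (by decide)
      · revert h
        generalize u 0 = a
        revert a
        decide
  · refine sInf_eq _ _ ⟨fun r => if r = 0 then 2 else if r = 1 then 0 else 4, fun r hr => ?_, ?_⟩
      fun j hj ⟨u, _, h⟩ => ?_
    · interval_cases r <;> simp only [fire, s2] <;> decide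
    · simp only [fire, s2]
      decide
    · interval_cases j <;> simp only [fire, s2] at h
      · exact absurd h (by decide)
      · revert h
        generalize u 0 = a
        revert a
        decide
      · revert h
        generalize u 0 = a
        generalize u 1 = b
        revert a b
        decide

end Pool.Agent.Results.MP_6677ae_co.LazyRound
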